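import Mathlib

set_option autoImplicit false

open MeasureTheory Set

namespace Pool.Agent.Results.MP_d572aa_gt.Door

/-- Euclidean three-space. -/
abbrev E3 := EuclideanSpace ℝ (Fin 3)

/-- The Euclidean plane. It serves as the plane `H` given by `x₃ = 0`, with coordinates `(x₁, x₂)`. -/
abbrev E2 := EuclideanSpace ℝ (Fin 2)

/-- A compact convex set with nonempty interior: a convex body if `n = 3`, a door if `n = 2`. -/
def IsBody {n : ℕ} (K : Set (EuclideanSpace ℝ (Fin n))) : Prop :=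
  IsCompact K ∧ Convex ℝ K ∧ (interior K).Nonempty

/-- The point `(p₁, p₂, 0)` of the plane `H = {x₃ = 0}`. Indices of coordinates start at `0` in the
formal text, so that `x 2` is the third coordinate `x₃`. -/
def toH (p : E2) : E3 := !₂[p 0, p 1, 0]

/-- The rotations of space. -/
abbrev SO3 := Matrix.specialOrthogonalGroup (Fin 3) ℝ

/-- The orientation-preserving rigid motion `x ↦ A x + v`, with `A` in `SO(3)`. -/
def move (A : SO3) (v : E3) (x : E3) : E3 :=
  WithLp.toLp 2 (A.1.mulVec x.ofLp) + v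

/-- The open half-space `x₃ > 0`. -/
def upper : Set E3 := {x | 0 < x 2}

/-- The open half-space `x₃ < 0`. -/
def lower : Set E3 := {x | x 2 < 0}

/-- The plane `H`, that is `x₃ = 0`. -/
def planeH : Set E3 := {x | x 2 = 0}

/-- A path `t ↦ (A t, v t)`, `t` in `[0,1]`, of orientation-preserving rigid motions is continuous. -/
def IsPath (A : unitInterval → SO3) (v : unitInterval → E3) : Prop :=
  Continuous A ∧ Continuous v

/-- The body `K` can be moved through the door `D` in the wall `H = {x₃ = 0}`: there is a continuous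
path of orientation-preserving rigid motions that starts with `K` in `{x₃ > 0}`, ends with `K` in
`{x₃ < 0}`, and at every time the moved body meets the plane `H` only inside the door. -/
def CanPass (K : Set E3) (D : Set E2) : Prop :=
  ∃ (A : unitInterval → SO3) (v : unitInterval → E3), IsPath A v ∧
    move (A 0) (v 0) '' K ⊆ upper ∧
    move (A 1) (v 1) '' K ⊆ lower ∧
    ∀ t, move (A t) (v t) '' K ∩ planeH ⊆ toH '' D

section Projection

variable {V : Type} [NormedAddCommGroup V] [InnerProductSpace ℝ V] [FiniteDimensional ℝ V]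

/-- The orthogonal complement of the line spanned by `u`. -/
noncomputable def perp (u : V) : Submodule ℝ V := (ℝ ∙ u)ᗮ

/-- The orthogonal projection of the set `K` onto the subspace `S`. -/
noncomputable def shadow (S : Submodule ℝ V) (K : Set V) : Set S :=
  S.orthogonalProjectionOnto '' K

/-- Lebesgue measure of the Euclidean space `S` (area when `S` is a plane). -/
noncomputable def area [MeasurableSpace V] [BorelSpace V] {S : Submodule ℝ V} (A : Set S) :
    ENNReal :=
  volume A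

end Projection

/-- Area of the orthogonal projection of `K` onto the plane `u^⊥`. -/
noncomputable def shadowArea (u : E3) (K : Set E3) : ENNReal := area (shadow (perp u) K)

/-- The tetrahedron with vertices `(±4, 0, 0)` and `(0, ±4, 40)`. -/
def K0 : Set E3 := {x | |x 0| ≤ 4 - x 2 / 10 ∧ |x 1| ≤ x 2 / 10}

/-- The door: a hexagon of area `30`. -/
def D0 : Set E2 := {p | |p 0| + |p 1| ≤ 4 ∧ |p 1| ≤ 3}

theorem K0_body : IsBody K0 := by
  refine ⟨?_, ?_, ?_⟩
  · refine Metric.isCompact_of_isClosed_isBounded ?_ ?_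
    · change IsClosed ({x : E3 | |x 0| ≤ 4 - x 2 / 10} ∩ {x : E3 | |x 1| ≤ x 2 / 10})
      refine IsClosed.inter (isClosed_le ?_ ?_) (isClosed_le ?_ ?_) <;> fun_prop
    · rw [Metric.isBounded_iff_subset_closedBall (0 : E3)]
      refine ⟨50, fun x hx => ?_⟩
      obtain ⟨h1, h2⟩ := hx
      rw [mem_closedBall_zero_iff, EuclideanSpace.norm_eq]
      apply Real.sqrt_le_iff.mpr
      refine ⟨by norm_num, ?_⟩
      rw [Fin.sum_univ_three]
      simp only [Real.norm_eq_abs, sq_abs]
      have h3 := abs_nonneg (x 1)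
      have h4 := abs_nonneg (x 0)
      have h5 := abs_le.mp h1
      have h6 := abs_le.mp h2
      nlinarith
  · intro x hx y hy a b ha hb hab
    obtain ⟨h1, h2⟩ := hx
    obtain ⟨h3, h4⟩ := hy
    rw [abs_le] at h1 h2 h3 h4
    refine ⟨?_, ?_⟩ <;> simp only [PiLp.add_apply, PiLp.smul_apply, smul_eq_mul] <;> rw [abs_le] <;> constructor <;> nlinarith
  · refine ⟨!₂[0, 0, 20], ?_⟩
    rw [mem_interior]
    refine ⟨{x | |x 0| < 4 - x 2 / 10 ∧ |x 1| < x 2 / 10}, ?_, ?_, ?_⟩
    · rintro x ⟨h1, h2⟩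
      exact ⟨h1.le, h2.le⟩
    · change IsOpen ({x : E3 | |x 0| < 4 - x 2 / 10} ∩ {x : E3 | |x 1| < x 2 / 10})
      refine IsOpen.inter (isOpen_lt ?_ ?_) (isOpen_lt ?_ ?_) <;> fun_prop
    · constructor <;> simp <;> norm_num

theorem D0_body : IsBody D0 := by
  refine ⟨?_, ?_, ?_⟩
  · refine Metric.isCompact_of_isClosed_isBounded ?_ ?_
    · change IsClosed ({p : E2 | |p 0| + |p 1| ≤ 4} ∩ {p : E2 | |p 1| ≤ 3})
      refine IsClosed.inter (isClosed_le ?_ ?_) (isClosed_le ?_ ?_) <;> fun_prop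
    · rw [Metric.isBounded_iff_subset_closedBall (0 : E2)]
      refine ⟨50, fun x hx => ?_⟩
      obtain ⟨h1, h2⟩ := hx
      rw [mem_closedBall_zero_iff, EuclideanSpace.norm_eq]
      apply Real.sqrt_le_iff.mpr
      refine ⟨by norm_num, ?_⟩
      rw [Fin.sum_univ_two]
      simp only [Real.norm_eq_abs]
      have h3 := abs_nonneg (x 1)
      have h4 := abs_nonneg (x 0)
      nlinarith
  · intro x hx y hy a b ha hb hab
    obtain ⟨h1, h2⟩ := hx
    obtain ⟨h3, h4⟩ := hy
    have e0 : |(a • x + b • y) 0| ≤ a * |x 0| + b * |y 0| := by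
      simp only [PiLp.add_apply, PiLp.smul_apply, smul_eq_mul]
      calc |a * x 0 + b * y 0| ≤ |a * x 0| + |b * y 0| := abs_add_le _ _
        _ = a * |x 0| + b * |y 0| := by rw [abs_mul, abs_mul, abs_of_nonneg ha, abs_of_nonneg hb]
    have e1 : |(a • x + b • y) 1| ≤ a * |x 1| + b * |y 1| := by
      simp only [PiLp.add_apply, PiLp.smul_apply, smul_eq_mul]
      calc |a * x 1 + b * y 1| ≤ |a * x 1| + |b * y 1| := abs_add_le _ _
        _ = a * |x 1| + b * |y 1| := by rw [abs_mul, abs_mul, abs_of_nonneg ha, abs_of_nonneg hb]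
    refine ⟨?_, ?_⟩ <;> nlinarith
  · refine ⟨!₂[0, 0], ?_⟩
    rw [mem_interior]
    refine ⟨{x | |x 0| + |x 1| < 4 ∧ |x 1| < 3}, ?_, ?_, ?_⟩
    · rintro x ⟨h1, h2⟩
      exact ⟨h1.le, h2.le⟩
    · change IsOpen ({p : E2 | |p 0| + |p 1| < 4} ∩ {p : E2 | |p 1| < 3})
      refine IsOpen.inter (isOpen_lt ?_ ?_) (isOpen_lt ?_ ?_) <;> fun_prop
    · constructor <;> simp

/-- rotation about the third axis -/
noncomputable def rotM (φ : ℝ) : Matrix (Fin 3) (Fin 3) ℝ :=
  !![Real.cos φ, -Real.sin φ, 0; Real.sin φ, Real.cos φ, 0; 0, 0, 1]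

theorem rotM_mem (φ : ℝ) : rotM φ ∈ Matrix.specialOrthogonalGroup (Fin 3) ℝ := by
  rw [Matrix.mem_specialOrthogonalGroup_iff]
  have hs := Real.sin_sq_add_cos_sq φ
  constructor
  · rw [Matrix.mem_orthogonalGroup_iff]
    ext i j
    fin_cases i <;> fin_cases j <;>
      simp [rotM, Matrix.mul_apply, Fin.sum_univ_three] <;> nlinarith
  · rw [Matrix.det_fin_three]
    simp [rotM]
    nlinarith

noncomputable def rot (φ : ℝ) : Matrix.specialOrthogonalGroup (Fin 3) ℝ := ⟨rotM φ, rotM_mem φ⟩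

theorem continuous_rot : Continuous rot := by
  refine Continuous.subtype_mk ?_ _
  refine continuous_matrix fun i j => ?_
  fin_cases i <;> fin_cases j <;> simp [rotM] <;> fun_prop

/-- the angle at time `t` -/
noncomputable def ang (t : ℝ) : ℝ := Real.pi / 2 * max 0 (min 1 (3 * t - 1))

/-- the vertical shift at time `t` -/
noncomputable def sh (t : ℝ) : ℝ := 1 - 21 * min 1 (3 * t) - 21 * max 0 (3 * t - 2)

theorem pass : CanPass K0 D0 := by
  refine ⟨fun t => rot (ang t), fun t => sh t • !₂[0, 0, 1], ⟨?_, ?_⟩, ?_, ?_, ?_⟩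
  · refine continuous_rot.comp ?_
    unfold ang
    fun_prop
  · have : Continuous fun t : unitInterval => sh t := by
      unfold sh
      fun_prop
    exact this.smul continuous_const
  · rintro _ ⟨x, ⟨h1, h2⟩, rfl⟩
    have h3 := abs_nonneg (x 1)
    simp [upper, move, rot, rotM, dotProduct, Fin.sum_univ_three, sh]
    linarith
  · rintro _ ⟨x, ⟨h1, h2⟩, rfl⟩
    have h3 := abs_nonneg (x 0)
    simp [lower, move, rot, rotM, dotProduct, Fin.sum_univ_three, sh]
    norm_num
    linarith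
  · rintro t _ ⟨⟨x, ⟨h1, h2⟩, rfl⟩, hx⟩
    have ht0 := t.2.1
    have ht1 := t.2.2
    have hx' : x 2 + sh t = 0 := by
      simpa [planeH, move, rot, rotM, Matrix.mulVec, dotProduct, Fin.sum_univ_three] using hx
    refine ⟨!₂[Real.cos (ang t) * x 0 - Real.sin (ang t) * x 1, Real.sin (ang t) * x 0 + Real.cos (ang t) * x 1], ?_, ?_⟩
    · have h3 := abs_nonneg (x 0)
      have h4 := abs_nonneg (x 1)
      rcases le_total (t : ℝ) (1 / 3) with hc | hc
      · have ha : ang t = 0 := by
          unfold ang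
          rw [min_eq_right (by linarith), max_eq_left (by linarith), mul_zero]
        have hs : sh t = 1 - 63 * t := by
          unfold sh
          rw [min_eq_right (by linarith), max_eq_left (by linarith)]
          ring
        rw [ha]
        simp only [Real.cos_zero, Real.sin_zero, one_mul, zero_mul, sub_zero, zero_add]
        constructor <;> simp <;> linarith
      rcases le_total (t : ℝ) (2 / 3) with hd | hd
      · have hs : sh t = -20 := by
          unfold sh
          rw [min_eq_left (by linarith), max_eq_left (by linarith)]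
          norm_num
        have hcs := Real.sin_sq_add_cos_sq (ang t)
        set c := Real.cos (ang t)
        set s := Real.sin (ang t)
        have hx2 : x 2 = 20 := by linarith
        rw [hx2] at h1 h2
        have h5 : x 0 ^ 2 ≤ 4 := by nlinarith [sq_abs (x 0)]
        have h6 : x 1 ^ 2 ≤ 4 := by nlinarith [sq_abs (x 1)]
        have h7 : (c * x 0 - s * x 1) ^ 2 + (s * x 0 + c * x 1) ^ 2 ≤ 8 := by
          have : (c * x 0 - s * x 1) ^ 2 + (s * x 0 + c * x 1) ^ 2 =
              (s ^ 2 + c ^ 2) * (x 0 ^ 2 + x 1 ^ 2) := by ring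
          rw [this, hcs]
          linarith
        constructor
        · simp only [Matrix.cons_val_zero, Matrix.cons_val_one]
          have h8 := sq_abs (c * x 0 - s * x 1)
          have h9 := sq_abs (s * x 0 + c * x 1)
          nlinarith [sq_nonneg (|c * x 0 - s * x 1| - |s * x 0 + c * x 1|)]
        · simp only [Matrix.cons_val_zero, Matrix.cons_val_one]
          have h9 := sq_abs (s * x 0 + c * x 1)
          nlinarith [sq_nonneg (c * x 0 - s * x 1)]
      · have ha : ang t = Real.pi / 2 := by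
          unfold ang
          rw [min_eq_left (by linarith), max_eq_right (by linarith), mul_one]
        have hs : sh t = -20 - 21 * (3 * t - 2) := by
          unfold sh
          rw [min_eq_left (by linarith), max_eq_right (by linarith)]
          ring
        rw [ha]
        simp only [Real.cos_pi_div_two, Real.sin_pi_div_two, one_mul, zero_mul, zero_sub, add_zero]
        constructor <;> simp <;> linarith
    · ext i
      fin_cases i <;> simp [toH, move, rot, rotM, dotProduct, Fin.sum_univ_three]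
      · ring
      · linarith

theorem vol_D0 : volume D0 ≤ 30 := by
  have h1 := EuclideanSpace.volume_preserving_symm_measurableEquiv_toLp (Fin 2)
  have h2 := volume_preserving_finTwoArrow ℝ
  set D' : Set (ℝ × ℝ) := {q | |q.1| + |q.2| ≤ 4 ∧ |q.2| ≤ 3} with hD'
  have hcl : IsClosed D' := by
    change IsClosed ({q : ℝ × ℝ | |q.1| + |q.2| ≤ 4} ∩ {q : ℝ × ℝ | |q.2| ≤ 3})
    refine IsClosed.inter (isClosed_le ?_ ?_) (isClosed_le ?_ ?_) <;> fun_prop
  have e1 : D0 = (MeasurableEquiv.toLp 2 (Fin 2 → ℝ)).symm ⁻¹' (MeasurableEquiv.finTwoArrow ⁻¹' D') := by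
    ext p
    simp [D0, D', MeasurableEquiv.finTwoArrow]
  rw [e1, h1.measure_preimage_equiv, h2.measure_preimage_equiv, Measure.volume_eq_prod,
    Measure.prod_apply hcl.measurableSet]
  have h3 : ∀ a : ℝ, volume (Prod.mk a ⁻¹' D') ≤ (Icc (-4 : ℝ) 4).indicator (fun a => ENNReal.ofReal (2 * min 3 (4 - |a|))) a := by
    intro a
    by_cases ha : a ∈ Icc (-4 : ℝ) 4
    · rw [indicator_of_mem ha]
      have hm : 0 ≤ 4 - |a| := by
        have := abs_le.mpr ha
        linarith
      have : Prod.mk a ⁻¹' D' ⊆ Icc (-(min 3 (4 - |a|))) (min 3 (4 - |a|)) := by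
        rintro b ⟨hb1, hb2⟩
        simp only at hb1 hb2
        rw [mem_Icc, ← abs_le]
        exact le_min hb2 (by linarith)
      refine (measure_mono this).trans ?_
      rw [Real.volume_Icc]
      apply ENNReal.ofReal_le_ofReal
      linarith
    · rw [indicator_of_notMem ha]
      have : Prod.mk a ⁻¹' D' = ∅ := by
        ext b
        simp only [mem_preimage, mem_empty_iff_false, iff_false]
        rintro ⟨hb1, hb2⟩
        simp only at hb1 hb2
        apply ha
        rw [mem_Icc, ← abs_le]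
        have := abs_nonneg b
        linarith
      rw [this]
      simp
  refine (lintegral_mono h3).trans ?_
  rw [lintegral_indicator measurableSet_Icc]
  have hcont : Continuous fun a : ℝ => 2 * min 3 (4 - |a|) := by fun_prop
  rw [← ofReal_integral_eq_lintegral_ofReal]
  · rw [integral_Icc_eq_integral_Ioc, ← intervalIntegral.integral_of_le (by norm_num)]
    have hi : ∀ a b : ℝ, IntervalIntegrable (fun a : ℝ => 2 * min 3 (4 - |a|)) volume a b :=
      fun a b => hcont.intervalIntegrable a b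
    rw [← intervalIntegral.integral_add_adjacent_intervals (hi (-4) (-1)) (hi (-1) 4),
      ← intervalIntegral.integral_add_adjacent_intervals (hi (-1) 1) (hi 1 4)]
    have i1 : ∫ a in (-4 : ℝ)..(-1), 2 * min 3 (4 - |a|) = 9 := by
      have : ∫ a in (-4 : ℝ)..(-1), 2 * min 3 (4 - |a|) = ∫ a in (-4 : ℝ)..(-1), (8 + 2 * a) := by
        apply intervalIntegral.integral_congr
        intro a ha
        rw [uIcc_of_le (by norm_num)] at ha
        simp only
        rw [abs_of_nonpos (by linarith [ha.2]), min_eq_right (by linarith [ha.2])]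
        ring
      rw [this]
      rw [intervalIntegral.integral_add (by simp) (by apply Continuous.intervalIntegrable; fun_prop),
        intervalIntegral.integral_const_mul, integral_id, intervalIntegral.integral_const]
      norm_num
    have i2 : ∫ a in (-1 : ℝ)..1, 2 * min 3 (4 - |a|) = 12 := by
      have : ∫ a in (-1 : ℝ)..1, 2 * min 3 (4 - |a|) = ∫ a in (-1 : ℝ)..1, (6 : ℝ) := by
        apply intervalIntegral.integral_congr
        intro a ha
        rw [uIcc_of_le (by norm_num)] at ha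
        simp only
        have := abs_le.mpr ha
        rw [min_eq_left (by linarith)]
        norm_num
      rw [this]
      simp
      norm_num
    have i3 : ∫ a in (1 : ℝ)..4, 2 * min 3 (4 - |a|) = 9 := by
      have : ∫ a in (1 : ℝ)..4, 2 * min 3 (4 - |a|) = ∫ a in (1 : ℝ)..4, (8 - 2 * a) := by
        apply intervalIntegral.integral_congr
        intro a ha
        rw [uIcc_of_le (by norm_num)] at ha
        simp only
        rw [abs_of_nonneg (by linarith [ha.1]), min_eq_right (by linarith [ha.1])]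
        ring
      rw [this]
      rw [intervalIntegral.integral_sub (by simp) (by apply Continuous.intervalIntegrable; fun_prop),
        intervalIntegral.integral_const_mul, integral_id, intervalIntegral.integral_const]
      norm_num
    rw [i1, i2, i3]
    norm_num
  · exact hcont.integrableOn_Icc
  · rw [Filter.EventuallyLE, ae_restrict_iff' measurableSet_Icc]
    refine Filter.Eventually.of_forall fun a ha => ?_
    have := abs_le.mpr ha
    simp only [Pi.zero_apply]
    have : 0 ≤ min 3 (4 - |a|) := le_min (by norm_num) (by linarith)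
    linarith

theorem vol_simplex :
    volume {p : Fin 2 → ℝ | 0 < p 0 ∧ 0 < p 1 ∧ p 0 + p 1 < 1} = ENNReal.ofReal (1 / 2) := by
  have h2 := volume_preserving_finTwoArrow ℝ
  have e1 : {p : Fin 2 → ℝ | 0 < p 0 ∧ 0 < p 1 ∧ p 0 + p 1 < 1} =
      MeasurableEquiv.finTwoArrow ⁻¹' (regionBetween (fun _ => (0 : ℝ)) (fun x => 1 - x) (Ioo 0 1)) := by
    ext p
    simp only [mem_ofPred_eq, mem_preimage, regionBetween, MeasurableEquiv.finTwoArrow, mem_Ioo]
    constructor
    · rintro ⟨h, h', h''⟩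
      refine ⟨⟨h, ?_⟩, h', ?_⟩
      · simp; linarith
      · simp; linarith
    · rintro ⟨⟨h, h'⟩, h'', h'''⟩
      simp at h h' h'' h'''
      refine ⟨h, h'', by linarith⟩
  rw [e1, h2.measure_preimage_equiv, Measure.volume_eq_prod, volume_regionBetween_eq_integral]
  · congr 1
    rw [← integral_Ioc_eq_integral_Ioo, ← intervalIntegral.integral_of_le (by norm_num)]
    simp only [Pi.sub_apply, sub_zero]
    rw [intervalIntegral.integral_sub (by simp) (by apply Continuous.intervalIntegrable; fun_prop)]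
    simp
    norm_num
  · exact (continuous_const.integrableOn_Icc).mono_set Ioo_subset_Icc_self
  · exact (Continuous.integrableOn_Icc (by fun_prop)).mono_set Ioo_subset_Icc_self
  · exact measurableSet_Ioo
  · intro x hx
    linarith [hx.2]

theorem tri_le (q v w : Fin 2 → ℝ) (S : Set (Fin 2 → ℝ))
    (h : ∀ s t : ℝ, 0 < s → 0 < t → s + t < 1 → q + s • v + t • w ∈ S) :
    ENNReal.ofReal (|v 0 * w 1 - v 1 * w 0| / 2) ≤ volume S := by
  have h1 : volume ((fun z => q + z) ⁻¹' S) = volume S := measure_preimage_add volume q S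
  rw [← h1]
  have h2 := Measure.addHaar_image_linearMap (volume : Measure (Fin 2 → ℝ))
    (Matrix.toLin' !![v 0, w 0; v 1, w 1]) {p : Fin 2 → ℝ | 0 < p 0 ∧ 0 < p 1 ∧ p 0 + p 1 < 1}
  rw [vol_simplex, LinearMap.det_toLin', Matrix.det_fin_two_of] at h2
  have h3 : ENNReal.ofReal (|v 0 * w 1 - v 1 * w 0| / 2) =
      ENNReal.ofReal |v 0 * w 1 - w 0 * v 1| * ENNReal.ofReal (1 / 2) := by
    rw [← ENNReal.ofReal_mul (abs_nonneg _), mul_comm (w 0) (v 1)]
    congr 1
    ring
  rw [h3, ← h2]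
  apply measure_mono
  rintro _ ⟨p, ⟨hp0, hp1, hp2⟩, rfl⟩
  have h4 := h (p 0) (p 1) hp0 hp1 hp2
  simp only [mem_preimage]
  convert h4 using 1
  rw [add_assoc]
  congr 1
  ext i
  fin_cases i <;> simp [Matrix.mulVec, dotProduct, Fin.sum_univ_two] <;> ring

theorem quad_le (q v w w' : Fin 2 → ℝ) (S : Set (Fin 2 → ℝ))
    (h : ∀ s t : ℝ, 0 < s → 0 < t → s + t < 1 → q + s • v + t • w ∈ S)
    (h' : ∀ s t : ℝ, 0 < s → 0 < t → s + t < 1 → q + s • v + t • w' ∈ S)
    (hd : 0 < v 0 * w 1 - v 1 * w 0) (hd' : v 0 * w' 1 - v 1 * w' 0 < 0) :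
    ENNReal.ofReal ((v 0 * w 1 - v 1 * w 0) / 2 + -(v 0 * w' 1 - v 1 * w' 0) / 2) ≤ volume S := by
  set Hp : Set (Fin 2 → ℝ) := {z | 0 < v 0 * (z 1 - q 1) - v 1 * (z 0 - q 0)} with hHp
  have hm : MeasurableSet Hp := by
    refine IsOpen.measurableSet ?_
    refine isOpen_lt ?_ ?_ <;> fun_prop
  rw [← measure_inter_add_sdiff S hm, ENNReal.ofReal_add (by linarith) (by linarith)]
  refine add_le_add ?_ ?_
  · have := tri_le q v w (S ∩ Hp) ?_
    · rwa [abs_of_pos hd] at this
    · intro s t hs ht hst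
      refine ⟨h s t hs ht hst, ?_⟩
      simp only [hHp, mem_ofPred_eq, Pi.add_apply, Pi.smul_apply, smul_eq_mul]
      have : v 0 * (q 1 + s * v 1 + t * w 1 - q 1) - v 1 * (q 0 + s * v 0 + t * w 0 - q 0) =
        t * (v 0 * w 1 - v 1 * w 0) := by ring
      rw [this]
      positivity
  · have := tri_le q v w' (S \ Hp) ?_
    · rwa [abs_of_neg hd'] at this
    · intro s t hs ht hst
      refine ⟨h' s t hs ht hst, ?_⟩
      simp only [hHp, mem_ofPred_eq, Pi.add_apply, Pi.smul_apply, smul_eq_mul]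
      have : v 0 * (q 1 + s * v 1 + t * w' 1 - q 1) - v 1 * (q 0 + s * v 0 + t * w' 0 - q 0) =
        t * (v 0 * w' 1 - v 1 * w' 0) := by ring
      rw [this]
      have := mul_neg_of_pos_of_neg ht hd'
      linarith

/-- Sanity check of `shadowArea`: it is the planar Lebesgue measure of the set of coordinate pairs of
the points of `K` with respect to an orthonormal frame of the plane `u^⊥`. -/
theorem shadow_eq (u : E3) (hu : ‖u‖ = 1) :
    ∃ b : Fin 2 → E3, Orthonormal ℝ b ∧
      ∀ K : Set E3, shadowArea u K = volume ((fun x : E3 => (fun i => inner ℝ (b i) x : Fin 2 → ℝ)) '' K) := by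
  have hu0 : u ≠ 0 := by
    rintro rfl
    simp at hu
  have : Fact (Module.finrank ℝ E3 = 2 + 1) := ⟨by simp⟩
  have hr : Module.finrank ℝ ↥(ℝ ∙ u)ᗮ = 2 := Submodule.finrank_orthogonal_span_singleton hu0
  let b : OrthonormalBasis (Fin 2) ℝ ↥(ℝ ∙ u)ᗮ := (stdOrthonormalBasis ℝ ↥(ℝ ∙ u)ᗮ).reindex (finCongr hr)
  refine ⟨fun i => (b i : E3), ?_, ?_⟩
  · have := b.orthonormal
    exact this.comp_linearIsometry (ℝ ∙ u)ᗮ.subtypeₗᵢ
  · intro K
    have h1 := EuclideanSpace.volume_preserving_symm_measurableEquiv_toLp (Fin 2)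
    have h2 := b.measurePreserving_measurableEquiv
    set e := b.measurableEquiv.trans (MeasurableEquiv.toLp 2 (Fin 2 → ℝ)).symm with he
    have h3 : MeasurePreserving e volume volume := h1.comp h2
    have key : ∀ x : E3, e ((ℝ ∙ u)ᗮ.orthogonalProjectionOnto x) = fun i => inner ℝ ((b i : E3)) x := by
      intro x
      ext i
      have : e ((ℝ ∙ u)ᗮ.orthogonalProjectionOnto x) i = b.repr ((ℝ ∙ u)ᗮ.orthogonalProjectionOnto x) i := rfl
      rw [this, b.repr_apply_apply]
      exact Submodule.inner_orthogonalProjectionOnto_eq_of_mem_left (b i) x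
    unfold shadowArea area shadow perp
    have e1 : ((fun x : E3 => (fun i => inner ℝ ((b i : E3)) x : Fin 2 → ℝ)) '' K) =
        e '' ((ℝ ∙ u)ᗮ.orthogonalProjectionOnto '' K) := by
      rw [image_image]
      exact image_congr fun x _ => (key x).symm
    rw [e1, ← e.preimage_symm, (h3.symm e).measure_preimage_equiv]


/-- coordinates of the projection of `(x0, x1, x2)` in the orthonormal frame `b` -/
noncomputable def Lc (b : Fin 2 → E3) (x0 x1 x2 : ℝ) : Fin 2 → ℝ :=
  fun i => b i 0 * x0 + b i 1 * x1 + b i 2 * x2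

theorem Lc_eq (b : Fin 2 → E3) (x0 x1 x2 : ℝ) :
    (fun i => inner ℝ (b i) !₂[x0, x1, x2] : Fin 2 → ℝ) = Lc b x0 x1 x2 := by
  ext i
  simp [Lc, PiLp.inner_apply, Fin.sum_univ_three]
  ring

theorem num1 (a b c : ℝ) (h : a ^ 2 + b ^ 2 + c ^ 2 = 1) (h1 : |c| ≤ 10 * |a|) (h2 : |b| ≤ |a|) :
    30 < 160 * |a| + 16 * |c| := by
  rw [← sq_abs a, ← sq_abs b, ← sq_abs c] at h
  have ha := abs_nonneg a
  have hb := abs_nonneg b
  have hc := abs_nonneg c
  by_contra hcon
  push Not at hcon
  have h3 : |c| ≤ 15 / 16 := by linarith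
  have h4 : |a| ≤ 3 / 16 := by linarith
  nlinarith

theorem num2 (a b c : ℝ) (h : a ^ 2 + b ^ 2 + c ^ 2 = 1) (h1 : 10 * |a| < |c|) (h2 : 10 * |b| < |c|) :
    30 < 32 * |c| := by
  rw [← sq_abs a, ← sq_abs b, ← sq_abs c] at h
  have ha := abs_nonneg a
  have hb := abs_nonneg b
  have hc := abs_nonneg c
  by_contra hcon
  push Not at hcon
  have h3 : |c| ≤ 15 / 16 := by linarith
  nlinarith

theorem lt_of (r : ℝ) (V : ENNReal) (hr : 30 < r) (h : ENNReal.ofReal r ≤ V) : 30 < V := by
  refine lt_of_lt_of_le ?_ h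
  have : (30 : ENNReal) = ENNReal.ofReal 30 := by simp
  rw [this]
  exact (ENNReal.ofReal_lt_ofReal_iff (by linarith)).mpr hr

theorem shadow_gt (u : E3) (hu : ‖u‖ = 1) : 30 < shadowArea u K0 := by
  obtain ⟨b, hb, hS⟩ := shadow_eq u hu
  rw [hS]
  set S : Set (Fin 2 → ℝ) := (fun x : E3 => (fun i => inner ℝ (b i) x : Fin 2 → ℝ)) '' K0 with hSdef
  have mem : ∀ x0 x1 x2 : ℝ, |x0| ≤ 4 - x2 / 10 → |x1| ≤ x2 / 10 → Lc b x0 x1 x2 ∈ S := by
    intro x0 x1 x2 h h'
    refine ⟨!₂[x0, x1, x2], ⟨?_, ?_⟩, Lc_eq b x0 x1 x2⟩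
    · simpa using h
    · simpa using h'
  have n0 : b 0 0 * b 0 0 + b 0 1 * b 0 1 + b 0 2 * b 0 2 = 1 := by
    have := real_inner_self_eq_norm_sq (b 0)
    rw [hb.1 0, PiLp.inner_apply, Fin.sum_univ_three] at this
    simp at this
    linarith
  have n1 : b 1 0 * b 1 0 + b 1 1 * b 1 1 + b 1 2 * b 1 2 = 1 := by
    have := real_inner_self_eq_norm_sq (b 1)
    rw [hb.1 1, PiLp.inner_apply, Fin.sum_univ_three] at this
    simp at this
    linarith
  have n01 : b 0 0 * b 1 0 + b 0 1 * b 1 1 + b 0 2 * b 1 2 = 0 := by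
    have : inner ℝ (b 0) (b 1) = (0 : ℝ) := hb.2 (show (0 : Fin 2) ≠ 1 by decide)
    rw [PiLp.inner_apply, Fin.sum_univ_three] at this
    simp at this
    linarith
  obtain ⟨W1, hW1⟩ : ∃ W1, W1 = b 0 1 * b 1 2 - b 0 2 * b 1 1 := ⟨_, rfl⟩
  obtain ⟨W2, hW2⟩ : ∃ W2, W2 = b 0 2 * b 1 0 - b 0 0 * b 1 2 := ⟨_, rfl⟩
  obtain ⟨W3, hW3⟩ : ∃ W3, W3 = b 0 0 * b 1 1 - b 0 1 * b 1 0 := ⟨_, rfl⟩
  have hW : W2 ^ 2 + W1 ^ 2 + W3 ^ 2 = 1 := by
    have : W2 ^ 2 + W1 ^ 2 + W3 ^ 2 =
      (b 0 0 * b 0 0 + b 0 1 * b 0 1 + b 0 2 * b 0 2) * (b 1 0 * b 1 0 + b 1 1 * b 1 1 + b 1 2 * b 1 2)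
        - (b 0 0 * b 1 0 + b 0 1 * b 1 1 + b 0 2 * b 1 2) ^ 2 := by
      rw [hW1, hW2, hW3]; ring
    rw [this, n0, n1, n01]; norm_num
  have m1 : ∀ s t : ℝ, 0 < s → 0 < t → s + t < 1 →
      Lc b (-4) 0 0 + s • Lc b 8 0 0 + t • Lc b 4 4 40 ∈ S := by
    intro s t hs ht hst
    have := mem (-4 + 8 * s + 4 * t) (4 * t) (40 * t) (by rw [abs_le]; constructor <;> linarith)
      (by rw [abs_le]; constructor <;> linarith)
    convert this using 1
    ext i
    simp [Lc]
    ring
  have m2 : ∀ s t : ℝ, 0 < s → 0 < t → s + t < 1 →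
      Lc b (-4) 0 0 + s • Lc b 8 0 0 + t • Lc b 4 (-4) 40 ∈ S := by
    intro s t hs ht hst
    have := mem (-4 + 8 * s + 4 * t) (-4 * t) (40 * t) (by rw [abs_le]; constructor <;> linarith)
      (by rw [abs_le]; constructor <;> linarith)
    convert this using 1
    ext i
    simp [Lc]
    ring
  have m3 : ∀ s t : ℝ, 0 < s → 0 < t → s + t < 1 →
      Lc b 0 (-4) 40 + s • Lc b 0 8 0 + t • Lc b (-4) 4 (-40) ∈ S := by
    intro s t hs ht hst
    have := mem (-4 * t) (-4 + 8 * s + 4 * t) (40 - 40 * t) (by rw [abs_le]; constructor <;> linarith)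
      (by rw [abs_le]; constructor <;> linarith)
    convert this using 1
    ext i
    simp [Lc]
    ring
  have m4 : ∀ s t : ℝ, 0 < s → 0 < t → s + t < 1 →
      Lc b 0 (-4) 40 + s • Lc b 0 8 0 + t • Lc b 4 4 (-40) ∈ S := by
    intro s t hs ht hst
    have := mem (4 * t) (-4 + 8 * s + 4 * t) (40 - 40 * t) (by rw [abs_le]; constructor <;> linarith)
      (by rw [abs_le]; constructor <;> linarith)
    convert this using 1
    ext i
    simp [Lc]
    ring
  have d1 : Lc b 8 0 0 0 * Lc b 4 4 40 1 - Lc b 8 0 0 1 * Lc b 4 4 40 0 = -320 * W2 + 32 * W3 := by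
    simp only [Lc, hW2, hW3]; ring
  have d2 : Lc b 8 0 0 0 * Lc b 4 (-4) 40 1 - Lc b 8 0 0 1 * Lc b 4 (-4) 40 0 = -320 * W2 - 32 * W3 := by
    simp only [Lc, hW2, hW3]; ring
  have d3 : Lc b 0 8 0 0 * Lc b (-4) 4 (-40) 1 - Lc b 0 8 0 1 * Lc b (-4) 4 (-40) 0 = -320 * W1 + 32 * W3 := by
    simp only [Lc, hW1, hW3]; ring
  have d4 : Lc b 0 8 0 0 * Lc b 4 4 (-40) 1 - Lc b 0 8 0 1 * Lc b 4 4 (-40) 0 = -320 * W1 - 32 * W3 := by
    simp only [Lc, hW1, hW3]; ring
  have t1 := tri_le _ _ _ S m1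
  have t2 := tri_le _ _ _ S m2
  have t3 := tri_le _ _ _ S m3
  have t4 := tri_le _ _ _ S m4
  rw [d1] at t1
  rw [d2] at t2
  rw [d3] at t3
  rw [d4] at t4
  by_cases c1 : |W3| ≤ 10 * |W2| ∧ |W1| ≤ |W2|
  · have h30 := num1 W2 W1 W3 hW c1.1 c1.2
    have : 30 < |-320 * W2 + 32 * W3| / 2 ∨ 30 < |-320 * W2 - 32 * W3| / 2 := by
      by_contra hcon
      push Not at hcon
      obtain ⟨g1, g2⟩ := hcon
      have g1' := abs_le.mp (show |-320 * W2 + 32 * W3| ≤ 60 by linarith)
      have g2' := abs_le.mp (show |-320 * W2 - 32 * W3| ≤ 60 by linarith)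
      rcases abs_cases W2 with ⟨e2, _⟩ | ⟨e2, _⟩ <;> rcases abs_cases W3 with ⟨e3, _⟩ | ⟨e3, _⟩ <;>
        rw [e2, e3] at h30 <;> linarith [g1'.1, g1'.2, g2'.1, g2'.2]
    rcases this with h | h
    · exact lt_of _ _ h t1
    · exact lt_of _ _ h t2
  by_cases c2 : |W3| ≤ 10 * |W1| ∧ |W2| ≤ |W1|
  · have h30 := num1 W1 W2 W3 (by linarith) c2.1 c2.2
    have : 30 < |-320 * W1 + 32 * W3| / 2 ∨ 30 < |-320 * W1 - 32 * W3| / 2 := by
      by_contra hcon
      push Not at hcon
      obtain ⟨g1, g2⟩ := hcon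
      have g1' := abs_le.mp (show |-320 * W1 + 32 * W3| ≤ 60 by linarith)
      have g2' := abs_le.mp (show |-320 * W1 - 32 * W3| ≤ 60 by linarith)
      rcases abs_cases W1 with ⟨e2, _⟩ | ⟨e2, _⟩ <;> rcases abs_cases W3 with ⟨e3, _⟩ | ⟨e3, _⟩ <;>
        rw [e2, e3] at h30 <;> linarith [g1'.1, g1'.2, g2'.1, g2'.2]
    rcases this with h | h
    · exact lt_of _ _ h t3
    · exact lt_of _ _ h t4
  have hlt : 10 * |W1| < |W3| ∧ 10 * |W2| < |W3| := by
    rcases le_total |W1| |W2| with h | h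
    · have : ¬ |W3| ≤ 10 * |W2| := fun h' => c1 ⟨h', h⟩
      push Not at this
      constructor <;> linarith
    · have : ¬ |W3| ≤ 10 * |W1| := fun h' => c2 ⟨h', h⟩
      push Not at this
      constructor <;> linarith
  have h30 := num2 W2 W1 W3 hW hlt.2 hlt.1
  have hW2' := abs_lt.mp (show |W2| < |W3| / 10 by linarith [hlt.2])
  rcases abs_cases W3 with ⟨e3, e3'⟩ | ⟨e3, e3'⟩
  · rw [e3] at h30 hW2'
    have := quad_le _ _ _ _ S m1 m2 (by rw [d1]; linarith [hW2'.2]) (by rw [d2]; linarith [hW2'.1])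
    rw [d1, d2] at this
    refine lt_of _ _ ?_ this
    linarith
  · rw [e3] at h30 hW2'
    have := quad_le _ _ _ _ S m2 m1 (by rw [d2]; linarith [hW2'.2]) (by rw [d1]; linarith [hW2'.1])
    rw [d1, d2] at this
    refine lt_of _ _ ?_ this
    linarith

/-- **Main result.** There are a convex body `K` and a door `D` such that `K` can be moved through
`D` although every orthogonal projection of `K` to a plane has larger area than `D`. -/
theorem result : ∃ (K : Set E3) (D : Set E2), IsBody K ∧ IsBody D ∧ CanPass K D ∧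
    ∀ u : E3, ‖u‖ = 1 → volume D < shadowArea u K :=
  ⟨K0, D0, K0_body, D0_body, pass, fun u hu => lt_of_le_of_lt vol_D0 (shadow_gt u hu)⟩

end Pool.Agent.Results.MP_d572aa_gt.Door
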